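import Pool.Agent.H24.UG.T9
import Pool.Agent.H49.AG.ER2

/-!
A component with many signs on which the relation holds (board `ulg_modules`, row `UR2`).
-/

set_option autoImplicit false

open MeasureTheory ProbabilityTheory Filter Topology Finset
open scoped Nat ENNReal

namespace Pool.Agent.H78.UG

open Pool.Agent.H24.T2 (Pset rel)
open Pool.Agent.H80.AG (sg)
open Pool.Agent.H49.AG (er2_lim er2_meas)
open Pool.Agent.H24.UG

section

variable {Q : ℕ} [NeZero Q]

omit [NeZero Q] in
theorem ur2_lbm : Measurable fun x : Om Q => x.2.2 0 :=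
  (measurable_pi_apply (0 : ℤ)).comp (measurable_snd.comp measurable_snd)

omit [NeZero Q] in
theorem ur2_flm (w i : ℕ) : MeasurableSet (FL Q w i) := by
  have h : Measurable fun x : Om Q => (x.2.2 0).1 (w, i) :=
    (measurable_pi_apply ((w, i) : ℕ × ℕ)).comp (measurable_fst.comp ur2_lbm)
  exact measurableSet_eq_fun h measurable_const

omit [NeZero Q] in
theorem ur2_sgm (p : ℕ) : Measurable fun x : Om Q => (x.2.2 0).2 p :=
  (measurable_pi_apply p).comp (measurable_snd.comp ur2_lbm)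

omit [NeZero Q] in
theorem ur2_snm (p : ℕ) : MeasurableSet (SN Q p) := by
  have h : MeasurableSet {x : Om Q | (x.2.2 0).2 p = 0} :=
    measurableSet_eq_fun (ur2_sgm p) measurable_const
  exact h.compl

theorem ur2_rbm {n : ℕ} (β : Fin n → ℕ) (p : ℕ) :
    Measurable fun x : Om Q => ∏ j, DD Q ((sh Q)^[p * β j] x) := by
  refine Finset.measurable_prod _ fun j _ => ?_
  have h0 : Measurable sg := measurable_from_top
  have h1 : Measurable (DD Q) :=
    h0.comp ((measurable_pi_apply (0 : ℤ)).comp measurable_fst)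
  have h2 : Measurable ((sh Q)^[p * β j]) := ((sh Q).continuous.iterate _).measurable
  exact h1.comp h2

theorem ur2_rsm {n : ℕ} (β : Fin n → ℕ) (c : ZMod Q) (p : ℕ) : MeasurableSet (RS Q β c p) := by
  have h1 : MeasurableSet {x : Om Q | (x.2.2 0).2 p ≠ 0} := ur2_snm p
  have h2 : MeasurableSet {x : Om Q | x.2.1 = c} :=
    measurableSet_eq_fun (measurable_fst.comp measurable_snd) measurable_const
  have h3 : MeasurableSet {x : Om Q | x ∈ RB Q β p (sg3 ((x.2.2 0).2 p))} := by
    have h4 : Measurable sg3 := measurable_from_top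
    have : MeasurableSet {x : Om Q | ∏ j, DD Q ((sh Q)^[p * β j] x) = sg3 ((x.2.2 0).2 p)} :=
      measurableSet_eq_fun (ur2_rbm β p) (h4.comp (ur2_sgm p))
    exact this.compl
  exact h1.inter (h2.inter h3)

end

/-- the Markov inequality for the two sums -/
theorem ur2_one {Ω : Type} [MeasurableSpace Ω] (P : Measure Ω) [IsProbabilityMeasure P]
    (s : Finset ℕ) (hs : s.Nonempty) (δ R : ℝ) (hδ : 0 < δ) (hR : 0 < R) (κ : Kernel Ω Ω)
    [IsMarkovKernel κ] (hκ : ∀ B, MeasurableSet B → P B = ∫⁻ ω, κ ω B ∂P) (A B : ℕ → Set Ω)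
    (hAm : ∀ p, MeasurableSet (A p)) (hBm : ∀ p, MeasurableSet (B p))
    (hA : 3 * δ / 4 * s.card ≤ ∑ p ∈ s, P.real (A p))
    (hB : ∑ p ∈ s, P.real (B p) ≤ 11 * R * s.card) :
    δ / 4 ≤ P.real {ω | δ / 4 * s.card ≤ ∑ p ∈ s, (κ ω).real (A p) ∧
      ∑ p ∈ s, (κ ω).real (B p) ≤ 48 * R / δ * s.card} := by
  have hc : (0 : ℝ) < s.card := by exact_mod_cast hs.card_pos
  have hreal : ∀ C, MeasurableSet C → ∫ ω, (κ ω).real C ∂P = P.real C := by
    intro C hC
    have h1 : ∫ ω, (κ ω).real C ∂P = (∫⁻ ω, κ ω C ∂P).toReal := by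
      refine integral_toReal (κ.measurable_coe hC).aemeasurable ?_
      exact Filter.Eventually.of_forall fun ω => measure_lt_top _ _
    rw [h1, ← hκ C hC]
    rfl
  have hint : ∀ C, MeasurableSet C → Integrable (fun ω => (κ ω).real C) P := by
    intro C hC
    refine Integrable.of_bound (κ.measurable_coe hC).ennreal_toReal.aestronglyMeasurable 1 ?_
    refine Filter.Eventually.of_forall fun ω => ?_
    rw [Real.norm_eq_abs, abs_of_nonneg measureReal_nonneg]
    exact measureReal_le_one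
  have hmeas : ∀ C : ℕ → Set Ω, (∀ p, MeasurableSet (C p)) →
      Measurable fun ω => ∑ p ∈ s, (κ ω).real (C p) := fun C hC =>
    Finset.measurable_sum _ fun p _ => (κ.measurable_coe (hC p)).ennreal_toReal
  have hsum : ∀ C : ℕ → Set Ω, (∀ p, MeasurableSet (C p)) →
      Integrable (fun ω => ∑ p ∈ s, (κ ω).real (C p)) P ∧
      ∫ ω, ∑ p ∈ s, (κ ω).real (C p) ∂P = ∑ p ∈ s, P.real (C p) := by
    intro C hC
    refine ⟨integrable_finsetSum _ fun p _ => hint _ (hC p), ?_⟩
    rw [integral_finsetSum _ fun p _ => hint _ (hC p)]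
    exact Finset.sum_congr rfl fun p _ => hreal _ (hC p)
  set f : Ω → ℝ := fun ω => ∑ p ∈ s, (κ ω).real (A p) with hf
  set g : Ω → ℝ := fun ω => ∑ p ∈ s, (κ ω).real (B p) with hg
  obtain ⟨hfi, hfv⟩ := hsum A hAm
  obtain ⟨hgi, hgv⟩ := hsum B hBm
  -- many points with many signs
  set EA : Set Ω := {ω | δ / 4 * s.card ≤ f ω} with hEA
  have hEAm : MeasurableSet EA := measurableSet_le measurable_const (hmeas A hAm)
  have h1 : δ / 2 ≤ P.real EA := by
    have hle : ∀ ω, f ω ≤ δ / 4 * s.card + EA.indicator (fun _ => (s.card : ℝ)) ω := by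
      intro ω
      by_cases hω : ω ∈ EA
      · rw [Set.indicator_of_mem hω]
        have : f ω ≤ s.card := by
          have := Finset.sum_le_card_nsmul s (fun p => (κ ω).real (A p)) 1
            fun p _ => measureReal_le_one
          simpa using this
        have h0 : 0 ≤ δ / 4 * s.card := by positivity
        linarith
      · rw [Set.indicator_of_notMem hω, add_zero]
        exact (not_le.1 hω).le
    have h2 : ∫ ω, f ω ∂P ≤ ∫ ω, (δ / 4 * s.card + EA.indicator (fun _ => (s.card : ℝ)) ω) ∂P :=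
      integral_mono hfi ((integrable_const _).add ((integrable_const _).indicator hEAm)) hle
    rw [integral_add (integrable_const _) ((integrable_const _).indicator hEAm),
      integral_indicator_const _ hEAm, integral_const, smul_eq_mul, smul_eq_mul,
      probReal_univ, one_mul, hfv] at h2
    have h3 : δ / 2 * s.card ≤ P.real EA * s.card := by linarith
    exact le_of_mul_le_mul_right h3 hc
  -- few points with many errors
  have h4 : P.real {ω | 48 * R / δ * s.card < g ω} ≤ 11 * δ / 48 := by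
    set a : ℝ := 48 * R / δ * s.card with ha
    have ha0 : 0 < a := by positivity
    have h5 := mul_meas_ge_le_integral_of_nonneg
      (Filter.Eventually.of_forall fun ω => Finset.sum_nonneg fun p _ =>
        (measureReal_nonneg : 0 ≤ (κ ω).real (B p))) hgi a
    have h6 : P.real {ω | a < g ω} ≤ P.real {ω | a ≤ g ω} :=
      measureReal_mono (fun ω (hω : a < g ω) => (show a ≤ g ω from hω.le)) (measure_ne_top _ _)
    have h7 : a * P.real {ω | a ≤ g ω} ≤ 11 * R * s.card := by
      refine h5.trans ?_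
      rw [hgv]
      exact hB
    have h8 : 11 * R * s.card = a * (11 * δ / 48) := by
      rw [ha]
      field_simp
    rw [h8] at h7
    exact h6.trans (le_of_mul_le_mul_left h7 ha0)
  have hcup : EA ⊆ {ω | δ / 4 * s.card ≤ f ω ∧ g ω ≤ 48 * R / δ * s.card} ∪
      {ω | 48 * R / δ * s.card < g ω} := by
    intro ω hω
    by_cases hle : g ω ≤ 48 * R / δ * s.card
    · exact Or.inl ⟨hω, hle⟩
    · exact Or.inr (not_le.1 hle)
  have hfin := (measureReal_mono hcup (measure_ne_top P _)).trans (measureReal_union_le _ _)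
  linarith

theorem pf_UR2 : T_UR2 := by
  intro Q n _ β c δ η m P hδ hη hP κ hκM hκ S hS
  have hprob := hP.prob
  have hQ : (0 : ℝ) < Q := by exact_mod_cast Nat.pos_of_ne_zero (NeZero.ne Q)
  have hR : 0 < η / Q := by positivity
  set A : ℕ → ℕ → ℕ → Set (Om Q) := fun w i p => FL Q w i ∩ SN Q p with hA
  set B : ℕ → ℕ → ℕ → Set (Om Q) := fun w i p => FL Q w i ∩ RS Q β c p with hB
  have hAm : ∀ w i p, MeasurableSet (A w i p) := fun w i p => (ur2_flm w i).inter (ur2_snm p)
  have hBm : ∀ w i p, MeasurableSet (B w i p) := fun w i p =>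
    (ur2_flm w i).inter (ur2_rsm β c p)
  set E : ℕ → ℕ → Set (Om Q) := fun w i =>
    {ω | δ / 4 * (Pset (Q * w !) (m w i)).card ≤
        ∑ p ∈ Pset (Q * w !) (m w i), (κ ω).real (A w i p) ∧
      ∑ p ∈ Pset (Q * w !) (m w i), (κ ω).real (B w i p) ≤
        48 * (η / Q) / δ * (Pset (Q * w !) (m w i)).card} with hE
  have hEm : ∀ w i, MeasurableSet (E w i) := by
    intro w i
    have hm1 : Measurable fun ω : Om Q =>
        ∑ p ∈ Pset (Q * w !) (m w i), (κ ω).real (A w i p) :=
      Finset.measurable_sum _ fun p _ => (κ.measurable_coe (hAm w i p)).ennreal_toReal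
    have hm2 : Measurable fun ω : Om Q =>
        ∑ p ∈ Pset (Q * w !) (m w i), (κ ω).real (B w i p) :=
      Finset.measurable_sum _ fun p _ => (κ.measurable_coe (hBm w i p)).ennreal_toReal
    exact (measurableSet_le measurable_const hm1).inter (measurableSet_le hm2 measurable_const)
  obtain ⟨i₀, hi₀⟩ : ∃ i₀ : ℕ, ∀ i, i₀ ≤ i → 2 / ((i : ℝ) + 1) ≤ η := by
    obtain ⟨i₀, hi₀⟩ := exists_nat_gt (2 / η)
    refine ⟨i₀, fun i hi => ?_⟩
    have h1 : (i₀ : ℝ) ≤ i := by exact_mod_cast hi
    rw [div_le_iff₀ (by positivity)]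
    rw [div_lt_iff₀ hη] at hi₀
    nlinarith
  have hEP : ∀ w i, i₀ ≤ i → δ / 4 ≤ P.real (E w i) := by
    intro w i hi
    refine ur2_one P (Pset (Q * w !) (m w i)) (hP.mi w i).2 δ (η / Q) hδ hR κ hκ (A w i) (B w i)
      (hAm w i) (hBm w i) ?_ ?_
    · have h1 : ∀ p ∈ Pset (Q * w !) (m w i), 3 * δ / 4 ≤ P.real (A w i p) := by
        intro p hp
        unfold Pset at hp
        rw [Finset.mem_filter] at hp
        have h2 := hP.dense p hp.2.1 (hp.2.2.of_mul_right _)
        have h3 := hP.good w i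
        have h4 := measureReal_union_add_inter (μ := P) (s := FL Q w i) (t := SN Q p)
          (ur2_snm p)
        have h5 : P.real (FL Q w i ∪ SN Q p) ≤ 1 := measureReal_le_one
        have h6 : P.real (A w i p) = P.real (FL Q w i ∩ SN Q p) := rfl
        rw [h6]
        linarith
      have h2 := Finset.card_nsmul_le_sum _ _ _ h1
      rw [nsmul_eq_mul] at h2
      linarith
    · refine (hP.relation w i).trans ?_
      refine mul_le_mul_of_nonneg_right ?_ (Nat.cast_nonneg _)
      rw [mul_div_assoc' 11 η (Q : ℝ)]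
      refine div_le_div_of_nonneg_right ?_ hQ.le
      linarith [hi₀ i hi]
  have hF : ∀ w, δ / 4 ≤ P.real {ω | ∃ᶠ i in atTop, ω ∈ E w i} := fun w =>
    er2_lim P (E w) (hEm w) (δ / 4) i₀ (hEP w)
  have hFF : δ / 4 ≤ P.real {ω | ∃ᶠ w in atTop, ω ∈ {ω | ∃ᶠ i in atTop, ω ∈ E w i}} :=
    er2_lim P (fun w => {ω | ∃ᶠ i in atTop, ω ∈ E w i}) (fun w => er2_meas _ (hEm w)) (δ / 4) 0
      fun w _ => hF w
  have hpos : P {ω | ∃ᶠ w in atTop, ω ∈ {ω | ∃ᶠ i in atTop, ω ∈ E w i}} ≠ 0 := by
    intro h0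
    have h1 : P.real {ω | ∃ᶠ w in atTop, ω ∈ {ω | ∃ᶠ i in atTop, ω ∈ E w i}} = 0 := by
      rw [measureReal_def, h0, ENNReal.toReal_zero]
    rw [h1] at hFF
    linarith
  have hfr : ∃ᶠ ω in ae P, ω ∈ {ω | ∃ᶠ w in atTop, ω ∈ {ω | ∃ᶠ i in atTop, ω ∈ E w i}} :=
    frequently_ae_iff.2 hpos
  obtain ⟨ω, hω, hωS⟩ := (hfr.and_eventually hS).exists
  refine ⟨ω, hωS, ?_⟩
  refine Filter.Frequently.mono hω fun w hw => ?_
  refine Filter.Frequently.mono hw fun i hi => ?_
  refine ⟨hi.1, hi.2.trans (le_of_eq ?_)⟩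
  congr 1
  field_simp

end Pool.Agent.H78.UG
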